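import Mathlib

namespace Pool.Agent.Results.MP_303525_mp.Counter
open Set Real

/-- `lam` is a Dirichlet eigenvalue of `-d²/dx² + V` on `[a, b]`. -/
def IsEig (a b : ℝ) (V : ℝ → ℝ) (lam : ℝ) : Prop :=
  ∃ u u' : ℝ → ℝ, ContinuousOn u (Icc a b) ∧ (∀ x ∈ Ioo a b, HasDerivAt u (u' x) x) ∧
    (∀ x ∈ Ioo a b, HasDerivAt u' ((V x - lam) * u x) x) ∧ u a = 0 ∧ u b = 0 ∧
    ∃ x ∈ Ioo a b, u x ≠ 0

noncomputable def w (x : ℝ) : ℝ := 5 + 10 / (11 * exp (10 * x) - 1)

noncomputable def pot (x : ℝ) : ℝ := 2 * (w x ^ 2 - 25)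

lemma den_pos {x : ℝ} (hx : 0 ≤ x) : 0 < 11 * exp (10 * x) - 1 := by
  have := one_le_exp (show 0 ≤ 10 * x by linarith)
  linarith

lemma w_ge {x : ℝ} (hx : 0 ≤ x) : 5 ≤ w x := by
  have := den_pos hx
  unfold w
  have : 0 ≤ 10 / (11 * exp (10 * x) - 1) := by positivity
  linarith

lemma w_zero : w 0 = 6 := by unfold w; norm_num

lemma w_pi : w π ≤ 5.0001 := by
  unfold w
  have h1 : (30 : ℝ) ^ 4 / (Nat.factorial 4) ≤ exp 30 := pow_div_factorial_le_exp _ (by norm_num) 4
  have h2 : exp 30 ≤ exp (10 * π) := exp_le_exp.2 (by linarith [pi_gt_three])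
  norm_num [Nat.factorial] at h1
  have : 10 / (11 * exp (10 * π) - 1) ≤ 0.0001 := by
    rw [div_le_iff₀ (den_pos pi_pos.le)]; linarith
  linarith

lemma w_deriv {x : ℝ} (hx : 0 ≤ x) : HasDerivAt w (25 - w x ^ 2) x := by
  have hd := den_pos hx
  have h1 : HasDerivAt (fun x => 11 * exp (10 * x) - 1) (11 * (exp (10 * x) * 10)) x := by
    have := (((hasDerivAt_id x).const_mul 10).exp.const_mul 11).sub_const 1
    simpa using this
  have h2 := ((hasDerivAt_const x (10 : ℝ)).div h1 hd.ne').const_add 5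
  refine HasDerivAt.congr_deriv h2 ?_
  unfold w
  field_simp
  ring

lemma pot_convex : ConvexOn ℝ (Icc 0 π) pot := by
  apply convexOn_of_hasDerivWithinAt2_nonneg (convex_Icc 0 π)
    (f' := fun x => 4 * (w x * (25 - w x ^ 2)))
    (f'' := fun x => 4 * ((25 - w x ^ 2) * (25 - 3 * w x ^ 2)))
  · intro x hx
    exact ((((w_deriv hx.1).pow 2).sub_const 25).const_mul 2).continuousAt.continuousWithinAt
  · intro x hx
    have h := w_deriv (interior_subset hx).1
    have := ((h.pow 2).sub_const 25).const_mul 2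
    refine (HasDerivAt.congr_deriv this ?_).hasDerivWithinAt
    simp; ring
  · intro x hx
    have h := w_deriv (interior_subset hx).1
    have := (h.mul ((h.pow 2).const_sub 25)).const_mul 4
    refine (HasDerivAt.congr_deriv this ?_).hasDerivWithinAt
    simp; ring
  · intro x hx
    have h := w_ge (interior_subset hx).1
    have h1 : 25 - w x ^ 2 ≤ 0 := by nlinarith
    have h2 : 25 - 3 * w x ^ 2 ≤ 0 := by nlinarith
    have := mul_nonneg_of_nonpos_of_nonpos h1 h2
    linarith

lemma pot_nonneg {x : ℝ} (hx : 0 ≤ x) : 0 ≤ pot x := by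
  have := w_ge hx
  unfold pot; nlinarith

noncomputable def ph (o A B x : ℝ) : ℝ := A * sin (o * x) + B * cos (o * x)
noncomputable def dph (o A B x : ℝ) : ℝ := o * (A * cos (o * x) - B * sin (o * x))
noncomputable def psi (o A B x : ℝ) : ℝ := dph o A B x - w x * ph o A B x
noncomputable def dpsi (o A B x : ℝ) : ℝ :=
  -(o ^ 2 + 25 - w x ^ 2) * ph o A B x - w x * dph o A B x

lemma ph_deriv (o A B x : ℝ) : HasDerivAt (ph o A B) (dph o A B x) x := by
  have h := (hasDerivAt_id x).const_mul o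
  have := (h.sin.const_mul A).add (h.cos.const_mul B)
  refine HasDerivAt.congr_deriv this ?_
  simp [dph]; ring

lemma dph_deriv (o A B x : ℝ) : HasDerivAt (dph o A B) (-o ^ 2 * ph o A B x) x := by
  have h := (hasDerivAt_id x).const_mul o
  have := ((h.cos.const_mul A).sub (h.sin.const_mul B)).const_mul o
  refine HasDerivAt.congr_deriv this ?_
  simp [ph]; ring

lemma psi_deriv (o A B : ℝ) {x : ℝ} (hx : 0 ≤ x) : HasDerivAt (psi o A B) (dpsi o A B x) x := by
  have := (dph_deriv o A B x).sub ((w_deriv hx).mul (ph_deriv o A B x))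
  refine HasDerivAt.congr_deriv this ?_
  unfold dpsi; ring

lemma dpsi_deriv (o A B : ℝ) {x : ℝ} (hx : 0 ≤ x) :
    HasDerivAt (dpsi o A B) ((pot x - o ^ 2) * psi o A B x) x := by
  have h := w_deriv hx
  have := ((((h.pow 2).const_sub (o ^ 2 + 25)).neg.mul (ph_deriv o A B x))).sub
    (h.mul (dph_deriv o A B x))
  refine HasDerivAt.congr_deriv this ?_
  simp [pot, psi]; ring

noncomputable def s (o : ℝ) : ℝ := o * (6 - w π) / (6 * w π + o ^ 2)
noncomputable def g (o : ℝ) : ℝ := o * π - arctan (s o)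

lemma sden (o : ℝ) : 0 < 6 * w π + o ^ 2 := by
  have := w_ge pi_pos.le
  positivity

lemma g_deriv (o : ℝ) : ∃ d, HasDerivAt g d o ∧ 0 < d := by
  have hK := w_ge pi_pos.le
  have hK' := w_pi
  have hd := sden o
  have h1 : HasDerivAt s (((6 - w π) * (6 * w π + o ^ 2) - o * (6 - w π) * (2 * o))
      / (6 * w π + o ^ 2) ^ 2) o := by
    have := ((hasDerivAt_id o).mul_const (6 - w π)).div
      (((hasDerivAt_id o).pow 2).const_add (6 * w π)) hd.ne'
    refine HasDerivAt.congr_deriv this ?_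
    simp
  refine ⟨_, ((hasDerivAt_id o).mul_const π).sub h1.arctan, ?_⟩
  have h2 : ((6 - w π) * (6 * w π + o ^ 2) - o * (6 - w π) * (2 * o))
      / (6 * w π + o ^ 2) ^ 2 ≤ 1 := by
    rw [div_le_one (by positivity)]
    have : 0 ≤ (6 - w π) * o ^ 2 := mul_nonneg (by linarith) (sq_nonneg o)
    nlinarith [sq_nonneg o]
  have h3 : 1 / (1 + s o ^ 2) ≤ 1 := by
    rw [div_le_one (by positivity)]; nlinarith [sq_nonneg (s o)]
  have h4 : 0 < 1 / (1 + s o ^ 2) := by positivity
  have := pi_gt_three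
  nlinarith

lemma g_mono : StrictMono g :=
  strictMono_of_deriv_pos fun o => by
    obtain ⟨d, h, hd⟩ := g_deriv o
    rwa [h.deriv]

lemma g_cont : Continuous g :=
  continuous_iff_continuousAt.2 fun o => (g_deriv o).choose_spec.1.continuousAt

lemma g_zero : g 0 = 0 := by simp [g, s]

lemma sin_g (o : ℝ) : sin (g o) = 0 ↔
    cos (o * π) * (o * (6 - w π)) - sin (o * π) * (6 * w π + o ^ 2) = 0 := by
  have hc := cos_arctan_pos (s o)
  have hs : sin (arctan (s o)) = s o * cos (arctan (s o)) := by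
    have := tan_arctan (s o)
    rw [tan_eq_sin_div_cos] at this
    field_simp at this
    linarith
  have hd := sden o
  have e : sin (g o) * (6 * w π + o ^ 2) = -cos (arctan (s o)) *
      (cos (o * π) * (o * (6 - w π)) - sin (o * π) * (6 * w π + o ^ 2)) := by
    rw [g, sin_sub, hs]
    have : s o * (6 * w π + o ^ 2) = o * (6 - w π) := by unfold s; field_simp
    linear_combination (-cos (o * π) * cos (arctan (s o))) * this
  constructor
  · intro h
    rw [h, zero_mul] at e
    exact (mul_eq_zero.1 e.symm).resolve_left (by linarith)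
  · intro h
    rw [h, mul_zero] at e
    exact (mul_eq_zero.1 e).resolve_right hd.ne'

lemma exists_root (n : ℕ) : ∃ o, 0 < o ∧ g o = (n + 1) * π := by
  have h1 : (n + 1) * π ≤ g (n + 2) := by
    have := arctan_lt_pi_div_two (s (n + 2))
    have := pi_pos
    unfold g; linarith
  have h0 : 0 < ((n : ℝ) + 1) * π := by have := pi_pos; positivity
  obtain ⟨o, ho, h⟩ := intermediate_value_Icc (show (0 : ℝ) ≤ n + 2 by positivity)
    g_cont.continuousOn (show (n + 1) * π ∈ Icc (g 0) (g (n + 2)) from ⟨by rw [g_zero]; exact h0.le, h1⟩)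
  refine ⟨o, ?_, h⟩
  apply g_mono.lt_iff_lt.1
  rw [h, g_zero]; exact h0

lemma eig_of (o : ℝ) (ho : 0 < o) (h : sin (g o) = 0) : IsEig 0 π pot (o ^ 2) := by
  rw [sin_g] at h
  refine ⟨psi o 6 o, dpsi o 6 o, fun x hx => (psi_deriv _ _ _ hx.1).continuousAt.continuousWithinAt,
    fun x hx => psi_deriv _ _ _ hx.1.le, fun x hx => dpsi_deriv _ _ _ hx.1.le, ?_, ?_, ?_⟩
  · simp [psi, dph, ph, w_zero]; ring
  · simp only [psi, dph, ph]; linear_combination h
  · by_contra hc
    push Not at hc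
    have hx : (1 : ℝ) ∈ Ioo 0 π := ⟨one_pos, by linarith [pi_gt_three]⟩
    have h1 : dpsi o 6 o 1 = 0 := by
      have e : psi o 6 o =ᶠ[nhds 1] fun _ => 0 := by
        filter_upwards [isOpen_Ioo.mem_nhds hx] with y hy using hc y hy
      exact (psi_deriv o 6 o zero_le_one).unique ((hasDerivAt_const 1 (0 : ℝ)).congr_of_eventuallyEq e)
    have h2 := hc 1 hx
    unfold psi at h2
    unfold dpsi at h1
    have h3 : (o ^ 2 + 25) * ph o 6 o 1 = 0 := by linear_combination -h1 - w 1 * h2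
    have h4 : ph o 6 o 1 = 0 := (mul_eq_zero.1 h3).resolve_left (by positivity)
    have h5 : dph o 6 o 1 = 0 := by rw [h4] at h2; linarith
    have h6 : o ^ 2 * ph o 6 o 1 ^ 2 + dph o 6 o 1 ^ 2 = o ^ 2 * (36 + o ^ 2) := by
      unfold ph dph
      linear_combination (o ^ 2 * (36 + o ^ 2)) * sin_sq_add_cos_sq (o * 1)
    rw [h4, h5] at h6
    have : 0 < o ^ 2 * (36 + o ^ 2) := by positivity
    linarith

lemma eig_pos {lam : ℝ} (h : IsEig 0 π pot lam) : 0 < lam := by
  obtain ⟨u, u', hc, h1, h2, ha, hb, x, hx, hne⟩ := h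
  by_contra hl
  push Not at hl
  have hcv : ConvexOn ℝ (Icc 0 π) (fun x => u x ^ 2) := by
    apply convexOn_of_hasDerivWithinAt2_nonneg (convex_Icc 0 π)
      (f' := fun x => 2 * (u x * u' x))
      (f'' := fun x => 2 * (u' x * u' x + u x * ((pot x - lam) * u x))) (hc.pow 2)
    · intro y hy
      rw [interior_Icc] at hy
      refine (HasDerivAt.congr_deriv ((h1 y hy).pow 2) ?_).hasDerivWithinAt
      simp; ring
    · intro y hy
      rw [interior_Icc] at hy
      exact (((h1 y hy).mul (h2 y hy)).const_mul 2).hasDerivWithinAt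
    · intro y hy
      rw [interior_Icc] at hy
      have := pot_nonneg hy.1.le
      have : 0 ≤ (pot y - lam) * (u y * u y) := mul_nonneg (by linarith) (mul_self_nonneg _)
      nlinarith [mul_self_nonneg (u' y)]
  have := hcv.le_on_segment (x := 0) (y := π) (z := x) (left_mem_Icc.2 pi_pos.le)
    (right_mem_Icc.2 pi_pos.le) (by rw [segment_eq_Icc pi_pos.le]; exact Ioo_subset_Icc_self hx)
  simp only [ha, hb] at this
  have h3 : 0 < u x ^ 2 := by positivity
  norm_num at this
  exact hne this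

lemma of_eig (o : ℝ) (ho : 0 < o) (h : IsEig 0 π pot (o ^ 2)) : sin (g o) = 0 := by
  obtain ⟨u, u', hc, h1, h2, ha, hb, x, hx, hne⟩ := h
  have W : ∀ A B, ∃ c, ∀ y ∈ Ioo 0 π, u y * dpsi o A B y - u' y * psi o A B y = c := by
    intro A B
    have hd : ∀ y ∈ Ioo 0 π,
        HasDerivAt (fun y => u y * dpsi o A B y - u' y * psi o A B y) 0 y := by
      intro y hy
      have := ((h1 y hy).mul (dpsi_deriv o A B hy.1.le)).sub
        ((h2 y hy).mul (psi_deriv o A B hy.1.le))
      refine HasDerivAt.congr_deriv this ?_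
      ring
    refine ⟨_, fun y hy => isOpen_Ioo.is_const_of_deriv_eq_zero (𝕜 := ℝ) isPreconnected_Ioo
      (fun z hz => (hd z hz).differentiableAt.differentiableWithinAt)
      (fun z hz => (hd z hz).deriv) hy hx⟩
  obtain ⟨c1, hc1⟩ := W 1 0
  obtain ⟨c2, hc2⟩ := W 0 1
  have e : EqOn (fun y => -(o * (o ^ 2 + 25)) * u y) (psi o c2 (-c1)) (Ioo 0 π) := by
    intro y hy
    have a1 := hc1 y hy
    have a2 := hc2 y hy
    have a3 : psi o 1 0 y * dpsi o 0 1 y - dpsi o 1 0 y * psi o 0 1 y = -(o * (o ^ 2 + 25)) := by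
      unfold psi dpsi ph dph
      linear_combination (-(o * (o ^ 2 + 25))) * sin_sq_add_cos_sq (o * y)
    have a4 : psi o c2 (-c1) y = c2 * psi o 1 0 y - c1 * psi o 0 1 y := by
      unfold psi ph dph; ring
    simp only
    rw [a4]
    linear_combination (-u y) * a3 + psi o 1 0 y * a2 - psi o 0 1 y * a1
  have e2 : EqOn (fun y => -(o * (o ^ 2 + 25)) * u y) (psi o c2 (-c1)) (Icc 0 π) :=
    e.of_subset_closure (continuousOn_const.mul hc)
      (fun y hy => (psi_deriv _ _ _ hy.1).continuousAt.continuousWithinAt) Ioo_subset_Icc_self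
      (by rw [closure_Ioo pi_pos.ne])
  have b1 := e2 (left_mem_Icc.2 pi_pos.le)
  have b2 := e2 (right_mem_Icc.2 pi_pos.le)
  have b3 := e hx
  simp only [ha, hb, mul_zero] at b1 b2 b3
  simp only [psi, dph, ph, w_zero, mul_zero, sin_zero, cos_zero] at b1
  have hc2 : c2 ≠ 0 := by
    intro h0
    have h01 : c1 = 0 := by rw [h0] at b1; linarith
    rw [h0, h01] at b3
    simp only [psi, dph, ph, neg_zero, zero_mul, sub_zero, mul_zero, add_zero] at b3
    have : 0 < o * (o ^ 2 + 25) := by positivity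
    exact hne ((mul_eq_zero.1 b3).resolve_left (by linarith))
  rw [sin_g]
  apply mul_left_cancel₀ hc2
  unfold psi dph ph at b2
  linear_combination (-6) * b2 + (o * sin (o * π) + w π * cos (o * π)) * b1

lemma s_nonneg {o : ℝ} (ho : 0 ≤ o) : 0 ≤ s o := by
  have := w_pi
  exact div_nonneg (mul_nonneg ho (by linarith)) (sden o).le

lemma g_ge {o : ℝ} (ho : 0 ≤ o) : o * π - o / (30 + o ^ 2) ≤ g o := by
  have h1 : arctan (s o) ≤ s o := by
    have := le_tan (arctan_nonneg.2 (s_nonneg ho)) (arctan_lt_pi_div_two _)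
    rwa [tan_arctan] at this
  have h2 : s o ≤ o / (30 + o ^ 2) := by
    have := w_ge pi_pos.le
    unfold s
    apply div_le_div₀ ho (by nlinarith) (by positivity) (by linarith)
  unfold g; linarith

lemma g_le {o : ℝ} (ho : 0 ≤ o) (h : o / (30 + o ^ 2) ≤ 0.08) :
    g o ≤ o * π - o * 0.9999 / (30.0006 + o ^ 2) / 1.0065 := by
  have hK := w_ge pi_pos.le
  have hK' := w_pi
  have h0 := s_nonneg ho
  have h2 : s o ≤ o / (30 + o ^ 2) := by
    unfold s
    apply div_le_div₀ ho (by nlinarith) (by positivity) (by linarith)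
  have h3 : o * 0.9999 / (30.0006 + o ^ 2) ≤ s o := by
    unfold s
    apply div_le_div₀ (mul_nonneg ho (by linarith)) (by nlinarith) (sden o) (by linarith)
  have h4 : s o / 1.0065 ≤ arctan (s o) := by
    refine le_trans ?_ (sin_le (arctan_nonneg.2 h0))
    rw [sin_arctan]
    apply div_le_div_of_nonneg_left h0 (by positivity)
    rw [sqrt_le_iff]
    constructor
    · norm_num
    · nlinarith
  have h5 : o * 0.9999 / (30.0006 + o ^ 2) / 1.0065 ≤ s o / 1.0065 :=
    div_le_div_of_nonneg_right h3 (by norm_num)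
  unfold g; linarith

theorem result : ∃ (a b : ℝ) (V : ℝ → ℝ), a < b ∧ ContinuousOn V (Icc a b) ∧
    ConvexOn ℝ (Icc a b) V ∧ (∀ x ∈ Icc a b, 0 ≤ V x) ∧
    ∃ l : ℕ → ℝ, StrictMono l ∧ range l = {lam | IsEig a b V lam} ∧
      l 0 / 1 ^ 2 + l 3 / 4 ^ 2 < l 1 / 2 ^ 2 + l 2 / 3 ^ 2 := by
  choose o ho hg using exists_root
  have hp := pi_pos
  refine ⟨0, π, pot, pi_pos, fun x hx =>
    ((((w_deriv hx.1).pow 2).sub_const 25).const_mul 2).continuousAt.continuousWithinAt,
    pot_convex, fun x hx => pot_nonneg hx.1, fun n => o n ^ 2, ?_, ?_, ?_⟩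
  · apply strictMono_nat_of_lt_succ
    intro n
    have : o n < o (n + 1) := by
      apply g_mono.lt_iff_lt.1
      rw [hg, hg]; push_cast; linarith
    have := ho n
    nlinarith
  · ext lam
    constructor
    · rintro ⟨n, rfl⟩
      apply eig_of _ (ho n)
      rw [hg]
      exact_mod_cast sin_nat_mul_pi (n + 1)
    · intro h
      have hl := eig_pos h
      have h1 : 0 < √lam := sqrt_pos.2 hl
      have h2 := of_eig (√lam) h1 (by rwa [sq_sqrt hl.le])
      obtain ⟨n, hn⟩ := sin_eq_zero_iff.1 h2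
      have h3 : 0 < g √lam := by rw [← g_zero]; exact g_mono h1
      have h4 : 0 < n := by
        rw [← hn] at h3
        exact_mod_cast (mul_pos_iff_of_pos_right hp).1 h3
      obtain ⟨k, rfl⟩ : ∃ k : ℕ, n = k + 1 := ⟨(n - 1).toNat, by omega⟩
      refine ⟨k, ?_⟩
      have : o k = √lam := g_mono.injective (by rw [hg, ← hn]; push_cast; ring)
      simp only [this, sq_sqrt hl.le]
  · have p1 := pi_gt_d4
    have p2 := pi_lt_d4
    have a0 : o 0 ≤ 1.0104 := by
      apply g_mono.le_iff_le.1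
      refine le_trans ?_ (g_ge (by norm_num))
      rw [hg]; norm_num; linarith
    have a3 : o 3 ≤ 4.0278 := by
      apply g_mono.le_iff_le.1
      refine le_trans ?_ (g_ge (by norm_num))
      rw [hg]; norm_num; linarith
    have a1 : 2.0187 ≤ o 1 := by
      apply g_mono.le_iff_le.1
      refine le_trans (g_le (by norm_num) (by norm_num)) ?_
      rw [hg]; norm_num; linarith
    have a2 : 3.0243 ≤ o 2 := by
      apply g_mono.le_iff_le.1
      refine le_trans (g_le (by norm_num) (by norm_num)) ?_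
      rw [hg]; norm_num; linarith
    have b0 : o 0 ^ 2 ≤ 1.0104 ^ 2 := pow_le_pow_left₀ (ho 0).le a0 2
    have b3 : o 3 ^ 2 ≤ 4.0278 ^ 2 := pow_le_pow_left₀ (ho 3).le a3 2
    have b1 : 2.0187 ^ 2 ≤ o 1 ^ 2 := pow_le_pow_left₀ (by norm_num) a1 2
    have b2 : 3.0243 ^ 2 ≤ o 2 ^ 2 := pow_le_pow_left₀ (by norm_num) a2 2
    simp only
    norm_num at b0 b1 b2 b3 ⊢
    linarith

end Pool.Agent.Results.MP_303525_mp.Counter
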